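import Pool.Agent.Lib.MP_53bec5_ag.Wt

/-!
The periphery of the open top positroid variety in `Gr(k,n)`, for all `1 ≤ k < n`: a point lies in
a cluster torus of Scott's cluster structure if and only if its columns do not split into two
independent families along a proper non-empty set of residue classes mod `gcd(k,n)`.
If `gcd(k,n) = 1` there is only one residue class, the right-hand side holds for every point, and
the periphery is empty.
-/

namespace Pool.Agent.Results.MP_53bec5_ag.DeepLocus

open Pool.Agent.Lib.MP_53bec5_ag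

theorem result (k n : ℕ) (hk : 1 ≤ k) (hkn : k < n)
    (M : Matrix (Fin k) (Fin n) ℂ) (hM : InTopPositroid hkn M) :
    (∃ s : Seed (Vertex k n) (RatFn k n),
      Reach IsMutable (rectSeed hkn) s ∧ ∀ v, NonvanishingAt M (s.x v)) ↔
    ∀ S : Set (ZMod (Nat.gcd k n)),
      Disjoint (Submodule.span ℂ (M.col '' {j | (j.val : ZMod (Nat.gcd k n)) ∈ S}))
        (Submodule.span ℂ (M.col '' {j | (j.val : ZMod (Nat.gcd k n)) ∉ S})) →
      S = ∅ ∨ S = Set.univ :=
  ⟨fun ⟨_, h1, h2⟩ => noSplit_of_torus hk hkn M h1 h2, torus_of_noSplit hk hkn M hM⟩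

end Pool.Agent.Results.MP_53bec5_ag.DeepLocus
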