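import Mathlib

/-!
A point of the top positroid variety of Gr(3,7) that lies in no torus of a cluster made of
Plücker coordinates only.
-/

namespace Pool.Agent.Results.MP_53bec5_ag.PluckerTori

/-- `I` and `J` are weakly separated: no four indices `a < b < c < d` alternate between
`I \ J` and `J \ I`. -/
def WeakSep {n : ℕ} (I J : Finset (Fin n)) : Prop :=
  ¬ ∃ a b c d : Fin n, a < b ∧ b < c ∧ c < d ∧
    ((a ∈ I \ J ∧ b ∈ J \ I ∧ c ∈ I \ J ∧ d ∈ J \ I) ∨
      (a ∈ J \ I ∧ b ∈ I \ J ∧ c ∈ J \ I ∧ d ∈ I \ J))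

/-- the integer matrix of the point -/
def pt : Matrix (Fin 3) (Fin 7) ℤ :=
  !![0, 1, 0, 1, 0, 1, 0; 0, 0, 1, 0, 1, 0, 1; 1, 0, 1, 1, 0, 0, 1]

/-- its maximal minors -/
def mn (a b c : Fin 7) : ℤ :=
  pt 0 a * pt 1 b * pt 2 c - pt 0 a * pt 1 c * pt 2 b - pt 0 b * pt 1 a * pt 2 c
    + pt 0 b * pt 1 c * pt 2 a + pt 0 c * pt 1 a * pt 2 b - pt 0 c * pt 1 b * pt 2 a

lemma det_pt (f : Fin 3 → Fin 7) :
    ((pt.map (Int.cast : ℤ → ℂ)).submatrix id f).det = (mn (f 0) (f 1) (f 2) : ℤ) := by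
  rw [Matrix.det_fin_three, mn]
  simp only [Matrix.submatrix_apply, Matrix.map_apply, id]
  push_cast
  ring

/-- the cyclic intervals -/
def fr : Fin 7 → Finset (Fin 7) :=
  ![{0, 1, 2}, {1, 2, 3}, {2, 3, 4}, {3, 4, 5}, {4, 5, 6}, {0, 5, 6}, {0, 1, 6}]

/-- the other index sets with a non-zero minor -/
def nz : Fin 14 → Finset (Fin 7) :=
  ![{0, 1, 4}, {0, 2, 3}, {0, 2, 5}, {0, 3, 4}, {0, 3, 6}, {0, 4, 5}, {1, 2, 4}, {1, 3, 4}, {1,
  3, 6}, {1, 4, 6}, {2, 3, 5}, {2, 4, 5}, {3, 4, 6}, {3, 5, 6}]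

lemma cover : ∀ a b c : Fin 7, a < b → b < c → mn a b c ≠ 0 →
    (∃ i, fr i = {a, b, c}) ∨ ∃ i, nz i = {a, b, c} := by
  decide +kernel

/-- the pairs that are not weakly separated -/
def bad : List (Fin 14 × Fin 14) :=
  [(0, 2), (0, 4), (0, 8), (0, 10), (0, 13), (1, 6), (1, 7), (1, 8), (1, 9), (2, 4), (2, 7),
  (2, 8), (2, 9), (2, 12), (3, 8), (3, 9), (3, 10), (3, 11), (4, 6), (4, 9), (4, 11), (5, 8),
  (5, 9), (5, 12), (5, 13), (6, 8), (6, 10), (6, 13), (7, 10), (7, 11), (8, 11), (9, 10), (9,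
  13), (10, 12), (11, 12), (11, 13)]

lemma bad_spec : ∀ e ∈ bad, ¬ WeakSep (nz e.1) (nz e.2) := by
  unfold WeakSep
  decide +kernel

lemma five : ∀ x0 x1 x2 x3 x4 x5 x6 x7 x8 x9 x10 x11 x12 x13 : Bool,
    bad.all (fun e => !(![x0, x1, x2, x3, x4, x5, x6, x7, x8, x9, x10, x11, x12, x13] e.1 &&
      ![x0, x1, x2, x3, x4, x5, x6, x7, x8, x9, x10, x11, x12, x13] e.2)) = true →
    x0.toNat + x1.toNat + x2.toNat + x3.toNat + x4.toNat + x5.toNat + x6.toNat + x7.toNat +
    x8.toNat + x9.toNat + x10.toNat + x11.toNat + x12.toNat + x13.toNat ≤ 5 := by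
  decide +kernel

lemma five' (x : Fin 14 → Bool) (h : ∀ e ∈ bad, ¬ (x e.1 = true ∧ x e.2 = true)) :
    (Finset.univ.filter fun i => x i = true).card ≤ 5 := by
  have e : ![x 0, x 1, x 2, x 3, x 4, x 5, x 6, x 7, x 8, x 9, x 10, x 11, x 12, x 13] = x := by
    funext i
    fin_cases i <;> rfl
  have h1 := five (x 0) (x 1) (x 2) (x 3) (x 4) (x 5) (x 6) (x 7) (x 8) (x 9) (x 10) (x 11) (x 12) (x 13)
    (by
      rw [e, List.all_eq_true]
      intro a ha
      have := h a ha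
      revert this
      cases x a.1 <;> cases x a.2 <;> simp)
  have h2 : ∀ b : Bool, (if b = true then 1 else 0) = b.toNat := fun b => by cases b <;> rfl
  rw [Finset.card_filter]
  simp only [Fin.sum_univ_succ, Fin.sum_univ_zero, h2]
  refine le_trans (le_of_eq ?_) h1
  simp only [add_zero, ← add_assoc]
  rfl

theorem result : ∃ M : Matrix (Fin 3) (Fin 7) ℂ,
    (∀ i : Fin 7, (M.submatrix id ![i, i + 1, i + 2]).det ≠ 0) ∧
    ∀ C : Finset (Finset (Fin 7)),
      (∀ I ∈ C, ∃ h : I.card = 3, (M.submatrix id (I.orderEmbOfFin h)).det ≠ 0) →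
      (∀ I ∈ C, ∀ J ∈ C, WeakSep I J) → C.card < 13 := by
  classical
  refine ⟨pt.map (Int.cast : ℤ → ℂ), fun i => ?_, fun C hC hW => ?_⟩
  · rw [det_pt, Int.cast_ne_zero]
    revert i
    decide +kernel
  · have h5 := five' (fun i => decide (nz i ∈ C)) fun e he h =>
      bad_spec e he (hW _ (of_decide_eq_true h.1) _ (of_decide_eq_true h.2))
    have hsub : C ⊆ Finset.univ.image fr ∪
        (Finset.univ.filter fun i => decide (nz i ∈ C) = true).image nz := by
      intro I hI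
      obtain ⟨h, hd⟩ := hC I hI
      rw [det_pt, Int.cast_ne_zero] at hd
      have e : I = {I.orderEmbOfFin h 0, I.orderEmbOfFin h 1, I.orderEmbOfFin h 2} := by
        ext y
        rw [← Finset.mem_coe, ← Finset.range_orderEmbOfFin I h, Set.mem_range]
        simp only [Fin.exists_fin_succ, Finset.mem_insert, Finset.mem_singleton, eq_comm (a := y),
          IsEmpty.exists_iff, or_false]
        rfl
      rcases cover _ _ _ ((I.orderEmbOfFin h).strictMono (by decide))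
        ((I.orderEmbOfFin h).strictMono (by decide)) hd with ⟨i, hi⟩ | ⟨i, hi⟩
      · exact Finset.mem_union_left _ (Finset.mem_image.2 ⟨i, Finset.mem_univ _, hi.trans e.symm⟩)
      · refine Finset.mem_union_right _ (Finset.mem_image.2 ⟨i, Finset.mem_filter.2
          ⟨Finset.mem_univ _, decide_eq_true ?_⟩, hi.trans e.symm⟩)
        rw [hi, ← e]
        exact hI
    have h7 : (Finset.univ.image fr).card ≤ 7 := Finset.card_image_le.trans (by simp)
    have h8 := (Finset.card_le_card hsub).trans (Finset.card_union_le _ _)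
    have h9 := (Finset.card_image_le (f := nz)
      (s := Finset.univ.filter fun i => decide (nz i ∈ C) = true)).trans h5
    omega

end Pool.Agent.Results.MP_53bec5_ag.PluckerTori
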